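import Pool.Agent.Helper21.MP.Defs

/-!
# Piece U1: one voter of dimension `2 n` in each weight decides all instances
-/

set_option autoImplicit false

open Finset

namespace Pool.Agent.Helper14.MP

open Pool.Agent.Helper22.ETModel Pool.Agent.Helper8.VT Pool.Agent.Helper8.UV
open Pool.Agent.Helper53.TC5 Pool.Agent.Helper21.MP

variable {n : ℕ}

/-- the factor of the triple `u v z` -/
private noncomputable def fac (f : Flags n) (w : Wts n) (u v z : Fin n) : ℝ :=
  if u < v ∧ v < z ∧ f u v = true ∧ f v z = true ∧ f u z = true then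
    ((w u v : ℝ) + w v z + w u z) ^ 2 else 1

/-- the voter -/
private noncomputable def vote (I : Inst n) : ℝ := 1 / 2 - ∏ u, ∏ v, ∏ z, fac I.flag I.wt u v z

private noncomputable def ent (w : Wts n) (i j u v : Fin n) : Polynomial ℝ :=
  if (u = i ∧ v = j) ∨ (u = j ∧ v = i) then Polynomial.X else Polynomial.C (w u v : ℝ)

private noncomputable def pfac (f : Flags n) (w : Wts n) (i j u v z : Fin n) : Polynomial ℝ :=
  if u < v ∧ v < z ∧ f u v = true ∧ f v z = true ∧ f u z = true then
    (ent w i j u v + ent w i j v z + ent w i j u z) ^ 2 else 1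

private lemma eval_ent (w : Wts n) (i j u v : Fin n) (x : ℤ) :
    (ent w i j u v).eval (x : ℝ) = ((put w i j x u v : ℤ) : ℝ) := by
  unfold ent put
  split_ifs <;> simp

private lemma eval_pfac (f : Flags n) (w : Wts n) (i j u v z : Fin n) (x : ℤ) :
    (pfac f w i j u v z).eval (x : ℝ) = fac f (put w i j x) u v z := by
  unfold pfac fac
  split_ifs
  · rw [Polynomial.eval_pow, Polynomial.eval_add, Polynomial.eval_add, eval_ent, eval_ent, eval_ent]
  · exact Polynomial.eval_one

/-- `1` if the cell `u v` is the cell `i j` -/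
private def dd (i j u v : Fin n) : ℕ := if (u = i ∧ v = j) ∨ (u = j ∧ v = i) then 1 else 0

private lemma deg_ent (w : Wts n) (i j u v : Fin n) : (ent w i j u v).natDegree ≤ dd i j u v := by
  unfold ent dd
  split_ifs
  · exact Polynomial.natDegree_X_le
  · rw [Polynomial.natDegree_C]

private lemma deg_pfac (f : Flags n) (w : Wts n) (i j u v z : Fin n) :
    (pfac f w i j u v z).natDegree ≤
      if u < v ∧ v < z then 2 * (dd i j u v + dd i j v z + dd i j u z) else 0 := by
  unfold pfac
  by_cases h : u < v ∧ v < z ∧ f u v = true ∧ f v z = true ∧ f u z = true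
  · rw [if_pos h, if_pos ⟨h.1, h.2.1⟩]
    refine Polynomial.natDegree_pow_le.trans ?_
    refine Nat.mul_le_mul_left 2 ?_
    refine (Polynomial.natDegree_add_le _ _).trans (max_le ?_ ?_)
    · refine (Polynomial.natDegree_add_le _ _).trans (max_le ?_ ?_)
      · exact (deg_ent w i j u v).trans (by omega)
      · exact (deg_ent w i j v z).trans (by omega)
    · exact (deg_ent w i j u z).trans (by omega)
  · rw [if_neg h, Polynomial.natDegree_one]
    exact Nat.zero_le _

private lemma count {i j : Fin n} (hij : i ≠ j) :
    ∑ u, ∑ v, ∑ z, (if u < v ∧ v < z then 2 * (dd i j u v + dd i j v z + dd i j u z) else 0) ≤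
      2 * n := by
  -- the two ends in increasing order
  obtain ⟨a, b, hab, hd⟩ : ∃ a b : Fin n, a < b ∧
      ∀ u v, u < v → dd i j u v = if u = a then (if v = b then 1 else 0) else 0 := by
    rcases lt_or_gt_of_ne hij with h | h
    · refine ⟨i, j, h, fun u v huv => ?_⟩
      unfold dd
      by_cases h1 : u = i
      · by_cases h2 : v = j
        · rw [if_pos (Or.inl ⟨h1, h2⟩), if_pos h1, if_pos h2]
        · rw [if_pos h1, if_neg h2, if_neg]
          rintro (⟨-, h3⟩ | ⟨h3, h4⟩)
          · exact h2 h3
          · exact hij (h1.symm.trans h3)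
      · rw [if_neg h1, if_neg]
        rintro (⟨h3, -⟩ | ⟨h3, h4⟩)
        · exact h1 h3
        · rw [h3, h4] at huv
          exact lt_asymm h huv
    · refine ⟨j, i, h, fun u v huv => ?_⟩
      unfold dd
      by_cases h1 : u = j
      · by_cases h2 : v = i
        · rw [if_pos (Or.inr ⟨h1, h2⟩), if_pos h1, if_pos h2]
        · rw [if_pos h1, if_neg h2, if_neg]
          rintro (⟨h3, -⟩ | ⟨-, h4⟩)
          · exact hij (h3.symm.trans h1)
          · exact h2 h4
      · rw [if_neg h1, if_neg]
        rintro (⟨h3, h4⟩ | ⟨h3, -⟩)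
        · rw [h3, h4] at huv
          exact lt_asymm h huv
        · exact h1 h3
  have hpt : ∀ u v z : Fin n,
      (if u < v ∧ v < z then 2 * (dd i j u v + dd i j v z + dd i j u z) else 0) ≤
      (if u = a then (if v = b then (if b < z then 2 else 0) else 0) else 0) +
      (if v = a then (if z = b then (if u < a then 2 else 0) else 0) else 0) +
      (if u = a then (if z = b then (if a < v ∧ v < b then 2 else 0) else 0) else 0) := by
    intro u v z
    by_cases h : u < v ∧ v < z
    · rw [if_pos h, hd u v h.1, hd v z h.2, hd u z (h.1.trans h.2)]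
      obtain ⟨h1, h2⟩ := h
      have e1 : 2 * (if u = a then (if v = b then 1 else 0) else 0) ≤
          (if u = a then (if v = b then (if b < z then 2 else 0) else 0) else 0) := by
        split_ifs with h3 h4 h5
        · exact le_refl _
        · exact absurd (h4 ▸ h2) h5
        · exact le_refl _
        · exact le_refl _
      have e2 : 2 * (if v = a then (if z = b then 1 else 0) else 0) ≤
          (if v = a then (if z = b then (if u < a then 2 else 0) else 0) else 0) := by
        split_ifs with h3 h4 h5
        · exact le_refl _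
        · exact absurd (h3 ▸ h1) h5
        · exact le_refl _
        · exact le_refl _
      have e3 : 2 * (if u = a then (if z = b then 1 else 0) else 0) ≤
          (if u = a then (if z = b then (if a < v ∧ v < b then 2 else 0) else 0) else 0) := by
        split_ifs with h3 h4 h5
        · exact le_refl _
        · exact absurd ⟨h3 ▸ h1, h4 ▸ h2⟩ h5
        · exact le_refl _
        · exact le_refl _
      omega
    · rw [if_neg h]
      exact Nat.zero_le _
  refine (Finset.sum_le_sum fun u _ => Finset.sum_le_sum fun v _ =>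
    Finset.sum_le_sum fun z _ => hpt u v z).trans ?_
  simp only [Finset.sum_add_distrib]
  have s1 : ∑ u : Fin n, ∑ v : Fin n, ∑ z : Fin n,
      (if u = a then (if v = b then (if b < z then 2 else 0) else 0) else 0) =
      ∑ z : Fin n, if b < z then 2 else 0 := by
    rw [Finset.sum_eq_single a]
    · rw [Finset.sum_eq_single b]
      · simp only [if_true]
      · intro v _ hv
        simp [hv]
      · intro h
        exact absurd (Finset.mem_univ _) h
    · intro u _ hu
      simp [hu]
    · intro h
      exact absurd (Finset.mem_univ _) h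
  have s2 : ∑ u : Fin n, ∑ v : Fin n, ∑ z : Fin n,
      (if v = a then (if z = b then (if u < a then 2 else 0) else 0) else 0) =
      ∑ u : Fin n, if u < a then 2 else 0 := by
    refine Finset.sum_congr rfl fun u _ => ?_
    rw [Finset.sum_eq_single a]
    · rw [Finset.sum_eq_single b]
      · simp only [if_true]
      · intro v _ hv
        simp [hv]
      · intro h
        exact absurd (Finset.mem_univ _) h
    · intro v _ hv
      simp [hv]
    · intro h
      exact absurd (Finset.mem_univ _) h
  have s3 : ∑ u : Fin n, ∑ v : Fin n, ∑ z : Fin n,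
      (if u = a then (if z = b then (if a < v ∧ v < b then 2 else 0) else 0) else 0) =
      ∑ v : Fin n, if a < v ∧ v < b then 2 else 0 := by
    rw [Finset.sum_eq_single a]
    · refine Finset.sum_congr rfl fun v _ => ?_
      rw [Finset.sum_eq_single b]
      · simp only [if_true]
      · intro z _ hz
        simp [hz]
      · intro h
        exact absurd (Finset.mem_univ _) h
    · intro u _ hu
      simp [hu]
    · intro h
      exact absurd (Finset.mem_univ _) h
  rw [s1, s2, s3, ← Finset.sum_add_distrib, ← Finset.sum_add_distrib]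
  calc ∑ x : Fin n, ((if b < x then 2 else 0) + (if x < a then 2 else 0) +
        if a < x ∧ x < b then 2 else 0) ≤ ∑ _x : Fin n, 2 := by
        refine Finset.sum_le_sum fun x _ => ?_
        rcases lt_trichotomy x a with h | h | h
        · rw [if_neg (lt_asymm (h.trans hab)), if_pos h, if_neg (fun h2 => lt_asymm h h2.1)]
        · subst h
          rw [if_neg (lt_asymm hab), if_neg (lt_irrefl _), if_neg (fun h2 => lt_irrefl _ h2.1)]
          omega
        · rcases lt_trichotomy x b with h3 | h3 | h3
          · rw [if_neg (lt_asymm h3), if_neg (lt_asymm h), if_pos ⟨h, h3⟩]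
          · subst h3
            rw [if_neg (lt_irrefl _), if_neg (lt_asymm h), if_neg (fun h2 => lt_irrefl _ h2.2)]
            omega
          · rw [if_pos h3, if_neg (lt_asymm h), if_neg (fun h2 => lt_asymm h3 h2.2)]
    _ = 2 * n := by
        rw [Finset.sum_const, Finset.card_univ, Fintype.card_fin, smul_eq_mul, mul_comm]

private lemma vote_low : IsLow (2 * n) (vote : Inst n → ℝ) := by
  intro f i j hi hj
  have hij : i ≠ j := by
    rintro rfl
    omega
  refine ⟨fun l x => (x : ℝ) ^ ((l : ℕ) + 1), fun w => ?_⟩
  set P : Polynomial ℝ := ∏ u, ∏ v, ∏ z, pfac f w i j u v z with hP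
  have hdeg : P.natDegree ≤ 2 * n := by
    refine le_trans ?_ (count hij)
    rw [hP]
    refine (Polynomial.natDegree_prod_le _ _).trans (Finset.sum_le_sum fun u _ => ?_)
    refine (Polynomial.natDegree_prod_le _ _).trans (Finset.sum_le_sum fun v _ => ?_)
    exact (Polynomial.natDegree_prod_le _ _).trans (Finset.sum_le_sum fun z _ => deg_pfac f w i j u v z)
  refine ⟨1 / 2 - P.coeff 0, fun l => -P.coeff (l + 1), fun x _ => ?_⟩
  have h1 : vote (⟨f, put w i j x⟩ : Inst n) = 1 / 2 - P.eval (x : ℝ) := by
    unfold vote
    rw [hP, Polynomial.eval_prod]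
    congr 1
    refine Finset.prod_congr rfl fun u _ => ?_
    rw [Polynomial.eval_prod]
    refine Finset.prod_congr rfl fun v _ => ?_
    rw [Polynomial.eval_prod]
    exact Finset.prod_congr rfl fun z _ => (eval_pfac f w i j u v z x).symm
  rw [h1, Polynomial.eval_eq_sum_range' (Nat.lt_succ_of_le hdeg), Finset.sum_range_succ', pow_zero,
    mul_one, Finset.sum_range (fun l => P.coeff (l + 1) * (x : ℝ) ^ (l + 1))]
  simp only [neg_mul, Finset.sum_neg_distrib]
  ring

private lemma one_le_pr {F : Fin n → ℝ} (h : ∀ u, 1 ≤ F u) : 1 ≤ ∏ u, F u := by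
  calc (1 : ℝ) = ∏ _u : Fin n, (1 : ℝ) := by rw [Finset.prod_const_one]
    _ ≤ ∏ u, F u := Finset.prod_le_prod (fun _ _ => zero_le_one) fun u _ => h u

private lemma vote_pos (I : Inst n) (hI : I.Valid) : 0 < vote I ↔ I.Yes := by
  obtain ⟨hf, -, hw, -⟩ := hI
  unfold vote
  constructor
  · intro h
    by_contra hno
    have h1 : ∀ u v z, 1 ≤ fac I.flag I.wt u v z := by
      intro u v z
      unfold fac
      split_ifs with h2
      · obtain ⟨a1, a2, a3, a4, a5⟩ := h2
        have h3 : I.wt u v + I.wt v z + I.wt u z ≠ 0 := fun h4 =>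
          hno ⟨u, v, z, a1.ne, a2.ne, (a1.trans a2).ne, a3, a4, a5, h4⟩
        have h5 : (1 : ℤ) ≤ (I.wt u v + I.wt v z + I.wt u z) ^ 2 := by
          have : 0 < (I.wt u v + I.wt v z + I.wt u z) ^ 2 := by positivity
          omega
        exact_mod_cast h5
      · exact le_refl _
    have h2 : 1 ≤ ∏ u, ∏ v, ∏ z, fac I.flag I.wt u v z :=
      one_le_pr fun u => one_le_pr fun v => one_le_pr fun z => h1 u v z
    linarith
  · -- a triangle of weight zero in increasing order
    have key : ∀ u v z : Fin n, u < v → v < z → I.flag u v = true → I.flag v z = true →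
        I.flag u z = true → I.wt u v + I.wt v z + I.wt u z = 0 →
        0 < 1 / 2 - ∏ u, ∏ v, ∏ z, fac I.flag I.wt u v z := by
      intro u v z h1 h2 h3 h4 h5 h6
      have h7 : fac I.flag I.wt u v z = 0 := by
        unfold fac
        rw [if_pos ⟨h1, h2, h3, h4, h5⟩]
        have h8 : (I.wt u v : ℝ) + I.wt v z + I.wt u z = 0 := by exact_mod_cast h6
        rw [h8]
        norm_num
      have h8 : ∏ u, ∏ v, ∏ z, fac I.flag I.wt u v z = 0 :=
        Finset.prod_eq_zero (Finset.mem_univ u) (Finset.prod_eq_zero (Finset.mem_univ v)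
          (Finset.prod_eq_zero (Finset.mem_univ z) h7))
      rw [h8]
      norm_num
    rintro ⟨i, j, l, hij, hjl, hil, f1, f2, f3, hs⟩
    rcases lt_or_gt_of_ne hij with h1 | h1
    · rcases lt_or_gt_of_ne hjl with h2 | h2
      · exact key i j l h1 h2 f1 f2 f3 hs
      · rcases lt_or_gt_of_ne hil with h3 | h3
        · exact key i l j h3 h2 f3 (by rw [hf]; exact f2) f1 (by
            rw [hw l j]
            linarith)
        · exact key l i j h3 h1 (by rw [hf]; exact f3) f1 (by rw [hf]; exact f2) (by
            rw [hw l i, hw l j]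
            linarith)
    · rcases lt_or_gt_of_ne hil with h2 | h2
      · exact key j i l h1 h2 (by rw [hf]; exact f1) f3 f2 (by
          rw [hw j i]
          linarith)
      · rcases lt_or_gt_of_ne hjl with h3 | h3
        · exact key j l i h3 h2 f2 (by rw [hf]; exact f3) (by rw [hf]; exact f1) (by
            rw [hw l i, hw j i]
            linarith)
        · exact key l j i h3 h1 (by rw [hf]; exact f2) (by rw [hf]; exact f1)
            (by rw [hf]; exact f3) (by
            rw [hw l j, hw j i, hw l i]
            linarith)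

/-- U1: one voter of dimension `2 n` in each weight of the side `01` decides all instances. -/
theorem upper_low (n : ℕ) : ∃ H : Inst n → ℝ, IsLow (2 * n) H ∧
    ∀ I : Inst n, I.Valid → (0 < H I ↔ I.Yes) :=
  ⟨vote, vote_low, vote_pos⟩

end Pool.Agent.Helper14.MP
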