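import Pool.Agent.Helper21.MP.Defs2

/-!
# Piece V1: one low-dimensional voter decides all tripartite instances
-/

set_option autoImplicit false

open Finset

namespace Pool.Agent.Helper14.MP2

open Pool.Agent.Helper22.ETModel Pool.Agent.Helper8.VT Pool.Agent.Helper8.UV
open Pool.Agent.Helper53.TC5 Pool.Agent.Helper21.MP2

variable {n : ℕ}

/-- the classes of the three vertices -/
private def Cls (u v z : Fin n) : Prop := (u : ℕ) % 3 = 0 ∧ (v : ℕ) % 3 = 1 ∧ (z : ℕ) % 3 = 2

private instance (u v z : Fin n) : Decidable (Cls u v z) := by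
  unfold Cls; infer_instance

/-- the factor of the triple `u v z` -/
private noncomputable def fac (w : Wts n) (u v z : Fin n) : ℝ :=
  if Cls u v z then ((w u v : ℝ) + w v z + w u z) ^ 2 else 1

/-- the voter -/
private noncomputable def vote (I : Inst n) : ℝ := 1 / 2 - ∏ u, ∏ v, ∏ z, fac I.wt u v z

private noncomputable def pfac (w : Wts n) (i j u v z : Fin n) : Polynomial ℝ :=
  if Cls u v z then
    ((if u = i ∧ v = j then Polynomial.X else Polynomial.C (w u v : ℝ)) +
      Polynomial.C ((w v z : ℝ) + w u z)) ^ 2 else 1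

private lemma eval_pfac (w : Wts n) {i j : Fin n} (hi : (i : ℕ) % 3 = 0) (hj : (j : ℕ) % 3 = 1)
    (u v z : Fin n) (x : ℤ) :
    (pfac w i j u v z).eval (x : ℝ) = fac (put w i j x) u v z := by
  unfold pfac fac
  by_cases hc : Cls u v z
  · have hc2 := hc
    obtain ⟨h0, h1, h2⟩ := hc2
    have e1 : put w i j x v z = w v z := by
      unfold put
      rw [if_neg]
      rintro (⟨rfl, -⟩ | ⟨-, rfl⟩) <;> omega
    have e2 : put w i j x u z = w u z := by
      unfold put
      rw [if_neg]
      rintro (⟨-, rfl⟩ | ⟨rfl, -⟩) <;> omega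
    have e3 : put w i j x u v = if u = i ∧ v = j then x else w u v := by
      unfold put
      refine if_congr ⟨?_, fun h => Or.inl h⟩ rfl rfl
      rintro (h | ⟨rfl, -⟩)
      · exact h
      · omega
    rw [if_pos hc, if_pos hc, e1, e2, e3, Polynomial.eval_pow, Polynomial.eval_add,
      Polynomial.eval_C]
    by_cases h : u = i ∧ v = j
    · rw [if_pos h, if_pos h, Polynomial.eval_X]
      ring
    · rw [if_neg h, if_neg h, Polynomial.eval_C]
      ring
  · rw [if_neg hc, if_neg hc, Polynomial.eval_one]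

private lemma deg_pfac (w : Wts n) (i j u v z : Fin n) :
    (pfac w i j u v z).natDegree ≤
      if u = i then (if v = j then (if (z : ℕ) % 3 = 2 then 2 else 0) else 0) else 0 := by
  unfold pfac
  by_cases h : Cls u v z
  · rw [if_pos h]
    by_cases h1 : u = i ∧ v = j
    · rw [if_pos h1, if_pos h1.1, if_pos h1.2, if_pos h.2.2]
      refine Polynomial.natDegree_pow_le.trans ?_
      have h2 := Polynomial.natDegree_add_le (Polynomial.X : Polynomial ℝ)
        (Polynomial.C ((w v z : ℝ) + w u z))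
      rw [Polynomial.natDegree_C, Polynomial.natDegree_X] at h2
      omega
    · rw [if_neg h1, ← Polynomial.C_add, ← Polynomial.C_pow, Polynomial.natDegree_C]
      exact Nat.zero_le _
  · rw [if_neg h, Polynomial.natDegree_one]
    exact Nat.zero_le _

private lemma count (n : ℕ) : ∑ z : Fin n, (if (z : ℕ) % 3 = 2 then 2 else 0) = 2 * (n / 3) := by
  rw [Finset.sum_range (fun z => if z % 3 = 2 then 2 else 0) |>.symm]
  induction n with
  | zero => rfl
  | succ n ih =>
    rw [Finset.sum_range_succ, ih]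
    split_ifs with h <;> omega

private lemma vote_low : IsLow (fun _ _ => 2 * (n / 3)) (vote : Inst n → ℝ) := by
  intro f i j hi hj
  refine ⟨fun l x => (x : ℝ) ^ ((l : ℕ) + 1), fun w => ?_⟩
  set P : Polynomial ℝ := ∏ u, ∏ v, ∏ z, pfac w i j u v z with hP
  have hdeg : P.natDegree ≤ 2 * (n / 3) := by
    have h1 : P.natDegree ≤ ∑ u, ∑ v, ∑ z : Fin n,
        (if u = i then (if v = j then (if (z : ℕ) % 3 = 2 then 2 else 0) else 0) else 0) := by
      rw [hP]
      refine (Polynomial.natDegree_prod_le _ _).trans (Finset.sum_le_sum fun u _ => ?_)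
      refine (Polynomial.natDegree_prod_le _ _).trans (Finset.sum_le_sum fun v _ => ?_)
      exact (Polynomial.natDegree_prod_le _ _).trans
        (Finset.sum_le_sum fun z _ => deg_pfac w i j u v z)
    have h2 : ∑ u, ∑ v, ∑ z : Fin n,
        (if u = i then (if v = j then (if (z : ℕ) % 3 = 2 then 2 else 0) else 0) else 0) =
        2 * (n / 3) := by
      rw [Finset.sum_eq_single i]
      · rw [Finset.sum_eq_single j]
        · simp only [if_true]
          exact count n
        · intro v _ hv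
          simp [hv]
        · intro h
          exact absurd (Finset.mem_univ _) h
      · intro u _ hu
        simp [hu]
      · intro h
        exact absurd (Finset.mem_univ _) h
    exact h1.trans h2.le
  refine ⟨1 / 2 - P.coeff 0, fun l => -P.coeff (l + 1), fun x _ => ?_⟩
  have h1 : vote (⟨f, put w i j x⟩ : Inst n) = 1 / 2 - P.eval (x : ℝ) := by
    unfold vote
    rw [hP, Polynomial.eval_prod]
    congr 1
    refine Finset.prod_congr rfl fun u _ => ?_
    rw [Polynomial.eval_prod]
    refine Finset.prod_congr rfl fun v _ => ?_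
    rw [Polynomial.eval_prod]
    exact Finset.prod_congr rfl fun z _ => (eval_pfac w hi hj u v z x).symm
  rw [h1, Polynomial.eval_eq_sum_range' (Nat.lt_succ_of_le hdeg), Finset.sum_range_succ', pow_zero,
    mul_one, Finset.sum_range (fun l => P.coeff (l + 1) * (x : ℝ) ^ (l + 1))]
  simp only [neg_mul, Finset.sum_neg_distrib]
  ring

private lemma one_le_pr {F : Fin n → ℝ} (h : ∀ u, 1 ≤ F u) : 1 ≤ ∏ u, F u := by
  calc (1 : ℝ) = ∏ _u : Fin n, (1 : ℝ) := by rw [Finset.prod_const_one]
    _ ≤ ∏ u, F u := Finset.prod_le_prod (fun _ _ => zero_le_one) fun u _ => h u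

private lemma vote_pos (I : Inst n) (hI : I.Valid) (hT : Tripartite I) : 0 < vote I ↔ I.Yes := by
  obtain ⟨-, -, hw, -⟩ := hI
  unfold vote
  constructor
  · intro h
    by_contra hno
    have h1 : ∀ u v z, 1 ≤ fac I.wt u v z := by
      intro u v z
      unfold fac
      split_ifs with h2
      · obtain ⟨a1, a2, a3⟩ := h2
        have h3 : I.wt u v + I.wt v z + I.wt u z ≠ 0 := fun h4 => by
          refine hno ⟨u, v, z, ?_, ?_, ?_, (hT u v).2 ?_, (hT v z).2 ?_, (hT u z).2 ?_, h4⟩
          · rintro rfl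
            omega
          · rintro rfl
            omega
          · rintro rfl
            omega
          · omega
          · omega
          · omega
        have h5 : (1 : ℤ) ≤ (I.wt u v + I.wt v z + I.wt u z) ^ 2 := by
          have : 0 < (I.wt u v + I.wt v z + I.wt u z) ^ 2 := by positivity
          omega
        exact_mod_cast h5
      · exact le_refl _
    have h2 : 1 ≤ ∏ u, ∏ v, ∏ z, fac I.wt u v z :=
      one_le_pr fun u => one_le_pr fun v => one_le_pr fun z => h1 u v z
    linarith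
  · have key : ∀ u v z : Fin n, (u : ℕ) % 3 = 0 → (v : ℕ) % 3 = 1 → (z : ℕ) % 3 = 2 →
        I.wt u v + I.wt v z + I.wt u z = 0 →
        0 < 1 / 2 - ∏ u, ∏ v, ∏ z, fac I.wt u v z := by
      intro u v z h1 h2 h3 h6
      have h7 : fac I.wt u v z = 0 := by
        unfold fac
        rw [if_pos ⟨h1, h2, h3⟩]
        have h8 : (I.wt u v : ℝ) + I.wt v z + I.wt u z = 0 := by exact_mod_cast h6
        rw [h8]
        norm_num
      have h8 : ∏ u, ∏ v, ∏ z, fac I.wt u v z = 0 :=
        Finset.prod_eq_zero (Finset.mem_univ u) (Finset.prod_eq_zero (Finset.mem_univ v)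
          (Finset.prod_eq_zero (Finset.mem_univ z) h7))
      rw [h8]
      norm_num
    rintro ⟨i, j, l, -, -, -, f1, f2, f3, hs⟩
    have g1 := (hT i j).1 f1
    have g2 := (hT j l).1 f2
    have g3 := (hT i l).1 f3
    have m1 : (i : ℕ) % 3 < 3 := Nat.mod_lt _ (by norm_num)
    have m2 : (j : ℕ) % 3 < 3 := Nat.mod_lt _ (by norm_num)
    have m3 : (l : ℕ) % 3 < 3 := Nat.mod_lt _ (by norm_num)
    have hcase : ((i : ℕ) % 3 = 0 ∧ (j : ℕ) % 3 = 1 ∧ (l : ℕ) % 3 = 2) ∨
        ((i : ℕ) % 3 = 0 ∧ (l : ℕ) % 3 = 1 ∧ (j : ℕ) % 3 = 2) ∨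
        ((j : ℕ) % 3 = 0 ∧ (i : ℕ) % 3 = 1 ∧ (l : ℕ) % 3 = 2) ∨
        ((j : ℕ) % 3 = 0 ∧ (l : ℕ) % 3 = 1 ∧ (i : ℕ) % 3 = 2) ∨
        ((l : ℕ) % 3 = 0 ∧ (i : ℕ) % 3 = 1 ∧ (j : ℕ) % 3 = 2) ∨
        ((l : ℕ) % 3 = 0 ∧ (j : ℕ) % 3 = 1 ∧ (i : ℕ) % 3 = 2) := by omega
    have w1 := hw i j
    have w2 := hw j l
    have w3 := hw i l
    rcases hcase with ⟨a, b, c⟩ | ⟨a, b, c⟩ | ⟨a, b, c⟩ | ⟨a, b, c⟩ | ⟨a, b, c⟩ | ⟨a, b, c⟩
    · exact key i j l a b c hs
    · exact key i l j a b c (by linarith)
    · exact key j i l a b c (by linarith)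
    · exact key j l i a b c (by linarith)
    · exact key l i j a b c (by linarith)
    · exact key l j i a b c (by linarith)

/-- V1: one voter of dimension `2 (n / 3)` in each weight of the side `01` decides all tripartite
instances. -/
theorem upper_low (n : ℕ) : ∃ H : Inst n → ℝ, IsLow (fun _ _ => 2 * (n / 3)) H ∧
    ∀ I : Inst n, I.Valid → Tripartite I → (0 < H I ↔ I.Yes) :=
  ⟨vote, vote_low, vote_pos⟩

end Pool.Agent.Helper14.MP2
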